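import Pool.Agent.Helper98.WF.St

set_option autoImplicit false

namespace Pool.Agent.Helper42.WF.M_TB

open Pool.Agent.Helper98.WF
open Polynomial

theorem stTB (hTA : StTA) (hGEN : StGEN) : StTB := by
  intro p _ F E _ _ _ _ L d T A halg hL hd hT halt h1 h2
  obtain ⟨⟨_, hL1, _⟩, hsm, hmono, hone, hstep, hVT, _⟩ := hGEN F E L hL
  have hne : ∀ (e : ℕ) (R : F[X]), PrD e R → R ≠ 0 := fun e R hR => hR.1.ne_zero
  have claim : ∀ e, 1 ≤ e → e ≤ d → ∀ x ∈ Sm L e, ∀ y ∈ Sm L e, A x y = 0 := by
    intro e he
    induction e, he using Nat.le_induction with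
    | base =>
      intro _ x hx y _
      rw [hone x hx]
      simp
    | succ e he ih =>
      intro hed
      have ih' := ih (by omega)
      have hle : VT L e {R | PrD e R} ≤ VT L d T := by
        refine le_trans ?_ (hVT d T).1
        unfold VT
        refine sup_le (hmono e d (by omega)) ?_
        rw [Submodule.span_le]
        rintro x ⟨R, hR, rfl⟩
        exact hsm d R (by rw [hR.2.2]; omega)
      have key := hTA p F E L e {R | PrD e R} A halg hL (fun R hR => hR)
        (fun x hx => halt x (hle hx)) ih'
        (by
          intro R hR a b c s ha hb hc hs da db dc ds hab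
          exact h1 R a b c s (hne e R hR) ha hb hc hs
            (Or.inl (by rw [hR.2.2]; omega)) (by omega) (by omega) (by omega) (by omega) hab)
        (by
          intro R hR R' hR' r hr dr hRr
          have h3 := h1 r R 1 R' 1 hr (hne e R hR) one_ne_zero (hne e R' hR') one_ne_zero
            (Or.inl (by omega)) (by rw [hR.2.2]; omega) (by rw [natDegree_one]; omega)
            (by rw [hR'.2.2]; omega) (by rw [natDegree_one]; omega)
            (by rw [mul_one, mul_one]; exact hRr)
          rw [hL1, add_zero, add_zero] at h3
          exact h3)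
      intro x hx y hy
      exact key x (hstep e he hx) y (hstep e he hy)
  exact hTA p F E L d T A halg hL hT halt (claim d hd le_rfl)
    (fun R hR a b c s ha hb hc hs da db dc ds hab =>
      h1 R a b c s (hne d R (hT R hR)) ha hb hc hs (Or.inr hR) da db dc ds hab) h2

end Pool.Agent.Helper42.WF.M_TB
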